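import Pool.Agent.T2H43.LK.Main

/-!
# Curvature is not invariant under Gorenstein linkage (Q2)

Let `S = R[y,z]/(y²,z²)` be the Artinian Gorenstein ring of the starting file
`MP_ae0d71_al.ComplexityDiffers`, with its ideals `I` and `J` linked by `0`. There `β_n(J) ≤ (n+1)(n+3)` and
`3 · 2^n ≤ 4 β_n(I)`. So `β_n(J)^(1/n)` has limit superior at most `1` and `β_n(I)^(1/n)` has limit superior at
least `2`: the curvatures of the two linked ideals differ. (Q1 of the same problem, on the complexity, is the
starting file; the statement on the complexity `∞` of `I` alone does not give a curvature greater than `1`.)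
-/

set_option autoImplicit false

namespace Pool.Agent.Results.MP_ae0d71_al.CurvatureDiffers

open Pool.Agent.T2H43.LK

/-- There are a Gorenstein local ring `S`, a Gorenstein perfect ideal `a` and proper ideals `I`, `J`
linked by `a`, with `S/I` and `S/J` Cohen-Macaulay, such that `curv_S(J) ≤ 1` and `curv_S(I) ≥ 2`. -/
theorem result :
    ∃ (S : Type) (_ : CommRing S) (_ : IsLocalRing S) (a I J : Ideal S),
      IsGorensteinLocal S ∧ IsGorensteinPerfect a ∧ I ≠ ⊤ ∧ J ≠ ⊤ ∧ IsLinked a I J ∧
      IsCMLocal (S ⧸ I) ∧ IsCMLocal (S ⧸ J) ∧ curv S J ≤ 1 ∧ 2 ≤ curv S I :=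
  ⟨D2 RR, inferInstance, inferInstance, ⊥, II, J1, gor, gorPerf, II_ne_top, J1_ne_top,
    linked, cm_quot _ II_ne_top, cm_quot _ J1_ne_top, limsup_le_one betti_J1, two_le_limsup betti_II⟩

end Pool.Agent.Results.MP_ae0d71_al.CurvatureDiffers
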